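import Pool.Agent.H37.CNL.Stmts

/-!
# Board cnl (MP_b57703), row VAS

Basic facts on a totally and wildly ramified place with base field `L^G`.
-/

set_option autoImplicit false

namespace Pool.CND

theorem vas_thm (h1 : S_UMW) : S_VAS := by
  intro p k L G _ _ _ _ _ _ ρ t P Δ hP
  have hF : ∀ g : G, Fixes P (ρ g) := by
    intro g
    have hg : g ∈ ram P ρ 1 := by rw [hP.ram]; exact Set.mem_univ g
    exact hg.1
  exact ⟨hP.ram, hF, hP.ot, h1 k L G P ρ ⊤ hP.inj (by rw [hP.ram]; exact Subgroup.coe_top), hP.inj⟩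

end Pool.CND
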