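import Pool.Agent.H37.CNL.Stmts

/-!
# Board cnl (MP_b57703), row VVA

The order of `Δ α` for a uniformiser `α` of the fixed field of a normal subgroup `M`.
-/

set_option autoImplicit false

namespace Pool.CND

open Finset Polynomial

section derivation

variable {k L : Type} [Field k] [Field L] [Algebra k L] {t : L} {Δ : L → L}

theorem DD.zero (h : DD k t Δ) : Δ 0 = 0 := by
  have := h.con 0
  rwa [map_zero] at this

theorem DD.one (h : DD k t Δ) : Δ 1 = 0 := by
  have := h.con 1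
  rwa [map_one] at this

theorem DD.sum (h : DD k t Δ) {ι : Type} (s : Finset ι) (f : ι → L) :
    Δ (∑ i ∈ s, f i) = ∑ i ∈ s, Δ (f i) := by
  classical
  induction s using Finset.induction_on with
  | empty => rw [sum_empty, sum_empty, h.zero]
  | insert a s ha ih => rw [sum_insert ha, sum_insert ha, h.add, ih]

theorem DD.powx (h : DD k t Δ) (x : L) (n : ℕ) : Δ (x ^ n) = n * x ^ (n - 1) * Δ x := by
  induction n with
  | zero => simp [h.one]
  | succ n ih =>
    rw [pow_succ, h.mul, ih]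
    cases n with
    | zero => simp
    | succ n =>
      simp only [Nat.add_sub_cancel]
      push_cast
      ring

/-- the derivation applied to a polynomial expression -/
theorem DD.eval (h : DD k t Δ) (f : L[X]) (x : L) :
    Δ (f.eval x) = ∑ i ∈ range (f.natDegree + 1), Δ (f.coeff i) * x ^ i +
      f.derivative.eval x * Δ x := by
  have h1 : f.derivative.eval x = ∑ i ∈ range (f.natDegree + 1), f.coeff i * i * x ^ (i - 1) := by
    rw [Polynomial.derivative_eval, Polynomial.sum_over_range]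
    intro n
    simp
  rw [Polynomial.eval_eq_sum_range, h.sum, h1, Finset.sum_mul, ← Finset.sum_add_distrib]
  refine Finset.sum_congr rfl fun i _ => ?_
  rw [h.mul, h.powx]
  ring

end derivation

section place

variable {k L : Type} [Field k] [Field L] [Algebra k L] (P : Place k L)

theorem ord_prod_ne {ι : Type} (s : Finset ι) (f : ι → L) (hf : ∀ i ∈ s, f i ≠ 0) :
    ∏ i ∈ s, f i ≠ 0 ∧ P.ord (∏ i ∈ s, f i) = ∑ i ∈ s, P.ord (f i) := by
  classical
  induction s using Finset.induction_on with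
  | empty => simp [P.ord_one]
  | insert a s ha ih =>
    obtain ⟨h1, h2⟩ := ih fun i hi => hf i (mem_insert_of_mem hi)
    have h3 := hf a (mem_insert_self a s)
    rw [prod_insert ha, sum_insert ha, P.ord_mul _ _ h3 h1, h2]
    exact ⟨mul_ne_zero h3 h1, rfl⟩

/-- the coefficients of `∏ (X - r i)`, `ord (r i) ≥ 1` -/
theorem coeff_prod_ge {ι : Type} (s : Finset ι) (r : ι → L) (hr : ∀ i ∈ s, P.Ge (r i) 1) :
    (∀ i, P.Ge ((∏ j ∈ s, (X - C (r j))).coeff i) 0) ∧
      ∀ i < s.card, P.Ge ((∏ j ∈ s, (X - C (r j))).coeff i) 1 := by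
  classical
  induction s using Finset.induction_on with
  | empty =>
    refine ⟨fun i => ?_, fun i hi => absurd hi (by simp)⟩
    rw [prod_empty, Polynomial.coeff_one]
    split_ifs
    · exact Or.inr (by rw [P.ord_one])
    · exact P.ge_zero 0
  | insert a s ha ih =>
    obtain ⟨h1, h2⟩ := ih fun i hi => hr i (mem_insert_of_mem hi)
    have h3 := hr a (mem_insert_self a s)
    have h4 : ∀ i, P.Ge (r a * (∏ j ∈ s, (X - C (r j))).coeff i) 1 := fun i => by
      have := P.ge_mul h3 (h1 i)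
      rwa [add_zero] at this
    rw [prod_insert ha, card_insert_of_notMem ha]
    have h5 : ∀ i, ((X - C (r a)) * ∏ j ∈ s, (X - C (r j))).coeff (i + 1) =
        (∏ j ∈ s, (X - C (r j))).coeff i - r a * (∏ j ∈ s, (X - C (r j))).coeff (i + 1) := fun i => by
      rw [sub_mul, Polynomial.coeff_sub, Polynomial.coeff_X_mul, Polynomial.coeff_C_mul]
    have h6 : ((X - C (r a)) * ∏ j ∈ s, (X - C (r j))).coeff 0 =
        - (r a * (∏ j ∈ s, (X - C (r j))).coeff 0) := by
      rw [sub_mul, Polynomial.coeff_sub, Polynomial.coeff_X_mul_zero, Polynomial.coeff_C_mul, zero_sub]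
    refine ⟨fun i => ?_, fun i hi => ?_⟩
    · cases i with
      | zero => rw [h6]; exact P.ge_mono (P.ge_neg (h4 0)) (by norm_num)
      | succ i => rw [h5]; exact P.ge_sub (h1 i) (P.ge_mono (h4 _) (by norm_num))
    · cases i with
      | zero => rw [h6]; exact P.ge_neg (h4 0)
      | succ i => rw [h5]; exact P.ge_sub (h2 i (by omega)) (h4 _)

end place

/-- the difference `ρ g α - α` for a uniformiser `α` of the fixed field of `M` -/
theorem vva_unif (hFXP : S_FXP) (hRST : S_RST) (hHER : S_HER) (hART : S_ART) (hINJ : S_INJ)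
    {k L G : Type} [Field k] [Field L] [Algebra k L] [Group G] [Fintype G] (ρ : G →* (L ≃ₐ[k] L))
    (P : Place k L) (M : Subgroup G) (hM : M.Normal) (hinj : Function.Injective ρ)
    (hfix : ∀ g : G, Fixes P (ρ g)) :
    ∃ α : L, α ≠ 0 ∧ (∀ m ∈ M, ρ m α = α) ∧ P.ord α = Nat.card M ∧
      ∀ g : G, g ∉ M → ρ g α - α ≠ 0 ∧
        P.ord (ρ g α - α) = Nat.card M + sm (fun g => P.b (ρ g)) {y | g⁻¹ * y ∈ M} := by
  obtain ⟨F, hF, Q, hQ⟩ := hFXP k L G P ρ M hinj fun n _ => hfix n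
  have hne : ((Q.pi : F) : L) ≠ 0 := fun h => Q.pi_ne (Subtype.ext h)
  refine ⟨((Q.pi : F) : L), hne, (hF _).mp (Q.pi).2, ?_, fun g hg => ?_⟩
  · rw [← hQ Q.pi Q.pi_ne, Q.ord_pi, mul_one]
  · obtain ⟨γ, hγ, hγf⟩ := hRST k L G P ρ M F Q g hF hQ (fun n hn => hM.conj_mem n hn g)
      (fun n hn => by
        have := hM.conj_mem n hn g⁻¹
        rwa [inv_inv] at this) (hfix g)
    have hγ1 : γ ≠ 1 := by
      intro h1
      refine hg (hART k L G ρ M g hinj fun x hx => ?_)
      have h2 := hγ ⟨x, (hF x).2 hx⟩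
      rw [h1] at h2
      exact h2.symm
    have h3 : γ Q.pi - Q.pi ≠ 0 := fun h => hγ1 (hINJ k F Q γ Q.pi hγf Q.pi_ne Q.ord_pi (sub_eq_zero.mp h))
    have h4 : ((γ Q.pi - Q.pi : F) : L) = ρ g ((Q.pi : F) : L) - ((Q.pi : F) : L) := by
      rw [← hγ]
      rfl
    have h5 := hQ _ h3
    rw [h4] at h5
    have h6 := hHER k L G P ρ M F Q g γ hinj (fun n _ => hfix n) hF hQ hg (hfix g) hγ hγf hγ1
    have h7 : Q.b γ = Q.ord (γ Q.pi - Q.pi) - 1 := rfl
    refine ⟨fun h => h3 (Subtype.ext (h4.trans h)), ?_⟩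
    rw [h6, h7, ← h5]
    ring

theorem vva_thm (hVAS : S_VAS) (hFXP : S_FXP) (hRST : S_RST) (hHER : S_HER) (hART : S_ART)
    (hINJ : S_INJ) (hTOT : S_TOT) : S_VVA := by
  classical
  intro p k L G _ _ _ _ _ _ ρ t P Δ M hP hM _
  obtain ⟨-, hfix, -, -, hinj⟩ := hVAS p k L G ρ t P Δ hP
  obtain ⟨α, hα0, hαM, hαo, hαg⟩ := vva_unif hFXP hRST hHER hART hINJ ρ P M hM hinj hfix
  have hMpos : (1 : ℤ) ≤ Nat.card M := by exact_mod_cast Nat.card_pos
  have hGpos : (0 : ℤ) < Nat.card G := by exact_mod_cast Nat.card_pos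
  have := hM
  obtain ⟨r, hrdef⟩ : ∃ r : G ⧸ M → L, ∀ q, r q = ρ q.out α := ⟨_, fun q => rfl⟩
  have hr : ∀ g : G, r (g : G ⧸ M) = ρ g α := by
    intro g
    obtain ⟨h, hh⟩ := QuotientGroup.mk_out_eq_mul M g
    rw [hrdef, hh, map_mul, AlgEquiv.mul_apply, hαM _ h.2]
  have hr0 : ∀ q, r q ≠ 0 := fun q => by
    rw [hrdef]
    exact (map_ne_zero_iff _ (ρ q.out).injective).mpr hα0
  have hro : ∀ q, P.ord (r q) = Nat.card M := fun q => by rw [hrdef, hfix _ α hα0, hαo]
  have hr1 : r 1 = α := by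
    have := hr 1
    rwa [map_one, AlgEquiv.one_apply] at this
  have hrg : ∀ (g : G) (q : G ⧸ M), ρ g (r q) = r ((g : G ⧸ M) * q) := by
    intro g q
    obtain ⟨x, rfl⟩ := QuotientGroup.mk_surjective q
    rw [hr, ← QuotientGroup.mk_mul, hr, map_mul, AlgEquiv.mul_apply]
  obtain ⟨f, hf⟩ : ∃ f : L[X], f = ∏ q : G ⧸ M, (X - C (r q)) := ⟨_, rfl⟩
  have hmonic : f.Monic := by
    rw [hf]
    exact Polynomial.monic_prod_of_monic _ _ fun q _ => Polynomial.monic_X_sub_C _
  have hdeg : f.natDegree = Fintype.card (G ⧸ M) := by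
    rw [hf, Polynomial.natDegree_prod_of_monic _ _ fun q _ => Polynomial.monic_X_sub_C _]
    simp
  have he : Fintype.card (G ⧸ M) * Nat.card M = Nat.card G := by
    rw [← Nat.card_eq_fintype_card]
    exact (Subgroup.card_eq_card_quotient_mul_card_subgroup M).symm
  have heZ : (Fintype.card (G ⧸ M) : ℤ) * Nat.card M = Nat.card G := by exact_mod_cast he
  -- the coefficients are fixed by `G`
  have hcoef : ∀ (i : ℕ) (g : G), ρ g (f.coeff i) = f.coeff i := by
    intro i g
    have h1 : f.map ((ρ g : L ≃ₐ[k] L) : L →+* L) = f := by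
      rw [hf, Polynomial.map_prod]
      refine Fintype.prod_equiv (Equiv.mulLeft (g : G ⧸ M)) _ _ fun q => ?_
      rw [Polynomial.map_sub, Polynomial.map_X, Polynomial.map_C, Equiv.coe_mulLeft, ← hrg]
      rfl
    conv_rhs => rw [← h1]
    rw [Polynomial.coeff_map]
    rfl
  have hge := coeff_prod_ge P (univ : Finset (G ⧸ M)) r fun q _ => Or.inr (by rw [hro]; exact hMpos)
  rw [← hf, card_univ] at hge
  have hbig : ∀ i < Fintype.card (G ⧸ M), P.Ge (f.coeff i) (Nat.card G) := by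
    intro i hi
    by_cases h0 : f.coeff i = 0
    · exact Or.inl h0
    · have h1 : (1 : ℤ) ≤ P.ord (f.coeff i) := (hge.2 i hi).resolve_left h0
      have h2 : ((Nat.card (⊤ : Subgroup G) : ℕ) : ℤ) ∣ P.ord (f.coeff i) :=
        hTOT k L G P ρ ⊤ hinj (fun g _ => hfix g) _ h0 (fun g _ => hcoef i g)
      rw [Subgroup.card_top] at h2
      exact Or.inr (Int.le_of_dvd (by omega) h2)
  -- the constant term
  have ha0 : f.coeff 0 = ∏ q : G ⧸ M, (-(r q)) := by
    rw [Polynomial.coeff_zero_eq_eval_zero, hf, Polynomial.eval_prod]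
    simp
  obtain ⟨hc1, hc2⟩ := ord_prod_ne P (univ : Finset (G ⧸ M)) (fun q => -(r q)) fun q _ => neg_ne_zero.mpr (hr0 q)
  have hc3 : P.ord (f.coeff 0) = Nat.card G := by
    rw [ha0, hc2, ← heZ]
    simp only [P.ord_neg, hro]
    rw [sum_const, card_univ, nsmul_eq_mul]
  have hc4 : f.coeff 0 ≠ 0 := by rw [ha0]; exact hc1
  have hp1 : ¬ (p : ℤ) ∣ 1 := by
    intro h
    have := Int.le_of_dvd (by norm_num) h
    have := hP.pr.two_le
    omega
  obtain ⟨hc5, hc6⟩ := (hP.base _ hc4 (hcoef 0)).2 1 (by rw [hc3, mul_one]) hp1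
  rw [hc3] at hc6
  -- the sum
  obtain ⟨S, hS⟩ : ∃ S, S = ∑ i ∈ range (f.natDegree + 1), Δ (f.coeff i) * α ^ i := ⟨_, rfl⟩
  have hαpow : ∀ j : ℕ, 1 ≤ j → P.Ge (α ^ j) 1 := by
    intro j hj
    refine Or.inr ?_
    rw [P.ord_pow hα0, hαo]
    have : (1 : ℤ) ≤ j := by exact_mod_cast hj
    nlinarith
  have hrest : P.Ge (∑ i ∈ range f.natDegree, Δ (f.coeff (i + 1)) * α ^ (i + 1)) (Nat.card G + 1) := by
    refine P.ge_sum _ _ _ fun i hi => ?_
    rw [mem_range, hdeg] at hi
    by_cases hi2 : i + 1 < Fintype.card (G ⧸ M)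
    · refine P.ge_mul ?_ (hαpow (i + 1) (by omega))
      by_cases h0 : f.coeff (i + 1) = 0
      · exact Or.inl (by rw [h0]; exact hP.dd.zero)
      · exact P.ge_mono (hP.base _ h0 (hcoef (i + 1))).1 ((hbig (i + 1) hi2).resolve_left h0)
    · have h1 : i + 1 = f.natDegree := by omega
      rw [h1, hmonic.coeff_natDegree, hP.dd.one, zero_mul]
      exact P.ge_zero _
  have hS1 : S = Δ (f.coeff 0) + ∑ i ∈ range f.natDegree, Δ (f.coeff (i + 1)) * α ^ (i + 1) := by
    rw [hS, Finset.sum_range_succ', pow_zero, mul_one, add_comm]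
  obtain ⟨hS2, hS3⟩ := P.ord_add_of_lt hc5 (by rw [hc6]; exact hrest)
  rw [← hS1] at hS2 hS3
  rw [hc6] at hS3
  -- the derivative
  have hfe : f = (X - C α) * ∏ q ∈ (univ : Finset (G ⧸ M)).erase 1, (X - C (r q)) := by
    rw [hf, ← Finset.mul_prod_erase univ _ (mem_univ (1 : G ⧸ M)), hr1]
  have hroot : f.eval α = 0 := by
    rw [hfe, Polynomial.eval_mul]
    simp
  have hder : f.derivative.eval α = ∏ q ∈ (univ : Finset (G ⧸ M)).erase 1, (α - r q) := by
    rw [hfe, Polynomial.derivative_mul, Polynomial.eval_add, Polynomial.eval_mul, Polynomial.eval_mul]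
    simp [Polynomial.eval_prod]
  have hterm : ∀ q ∈ (univ : Finset (G ⧸ M)).erase 1, α - r q ≠ 0 ∧
      P.ord (α - r q) = Nat.card M + sm (fun g => P.b (ρ g)) {y | (q.out)⁻¹ * y ∈ M} := by
    intro q hq
    have hq1 : q.out ∉ M := by
      intro h
      refine (mem_erase.mp hq).1 ?_
      rw [← QuotientGroup.out_eq' q]
      exact (QuotientGroup.eq_one_iff _).mpr h
    obtain ⟨h1, h2⟩ := hαg _ hq1
    have h3 : α - r q = -(ρ q.out α - α) := by rw [hrdef]; ring
    rw [h3, P.ord_neg]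
    exact ⟨neg_ne_zero.mpr h1, h2⟩
  obtain ⟨hd1, hd2⟩ := ord_prod_ne P ((univ : Finset (G ⧸ M)).erase 1) (fun q => α - r q)
    fun q hq => (hterm q hq).1
  rw [← hder] at hd1 hd2
  have hsumb : ∑ q ∈ (univ : Finset (G ⧸ M)).erase 1,
      sm (fun g => P.b (ρ g)) {y | (q.out)⁻¹ * y ∈ M} = So P ρ M := by
    unfold So sm
    refine Eq.trans ?_ (Finset.sum_fiberwise_of_maps_to (t := (univ : Finset (G ⧸ M)).erase 1)
      (g := fun g : G => (g : G ⧸ M)) (fun g hg => ?_) _)
    · refine Finset.sum_congr rfl fun q hq => ?_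
      refine Finset.sum_congr ?_ fun _ _ => rfl
      ext y
      simp only [mem_filter, mem_univ, true_and, Set.mem_setOf_eq]
      have h1 : (q.out)⁻¹ * y ∈ M ↔ (y : G ⧸ M) = q := by
        rw [← QuotientGroup.eq, QuotientGroup.out_eq']
        exact eq_comm
      rw [h1]
      constructor
      · intro h
        refine ⟨fun hy => (mem_erase.mp hq).1 ?_, h⟩
        rw [← h]
        exact (QuotientGroup.eq_one_iff _).mpr hy
      · exact fun h => h.2
    · simp only [mem_filter, mem_univ, true_and, Set.mem_setOf_eq] at hg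
      exact mem_erase.mpr ⟨fun h => hg ((QuotientGroup.eq_one_iff _).mp h), mem_univ _⟩
  have hd3 : P.ord (f.derivative.eval α) = Nat.card G - Nat.card M + So P ρ M := by
    rw [hd2, Finset.sum_congr rfl fun q hq => (hterm q hq).2, Finset.sum_add_distrib, hsumb, sum_const,
      card_erase_of_mem (mem_univ _), card_univ, nsmul_eq_mul, ← heZ]
    have h1 : 1 ≤ Fintype.card (G ⧸ M) := Fintype.card_pos
    push_cast [Nat.cast_sub h1]
    ring
  -- conclusion
  have hfin : f.derivative.eval α * Δ α = -S := by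
    have h1 := hP.dd.eval f α
    rw [hroot, hP.dd.zero, ← hS] at h1
    linear_combination -h1
  have hΔ : Δ α ≠ 0 := by
    intro h
    rw [h, mul_zero] at hfin
    exact hS2 (neg_eq_zero.mp hfin.symm)
  have h2 := P.ord_mul _ _ hd1 hΔ
  rw [hfin, P.ord_neg, hS3, hd3] at h2
  exact ⟨α, hα0, hαM, hαo, hΔ, by omega⟩

end Pool.CND
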